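import Pool.Agent.Helper47.EN.Defs
import Pool.Agent.Helper31.RRK.Frob
import Pool.Agent.Helper84.RRE

/-!
# Genus one: the involution attached to a place (module EN-I)
-/

set_option autoImplicit false
set_option linter.style.haveILetI false

namespace Pool.Agent.Helper84.EN

open Pool.Agent.Helper16 Pool.Agent.Helper45.FF Pool.Agent.Helper45.S4 Pool.Agent.Helper47.RR
open Pool.Agent.Helper47.EN Pool.Agent.Helper84.RRE IntermediateField Pool.Agent.Helper31.RRK

variable {k M : Type} [Field k] [Field M] [Algebra k M]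

/-- In genus one different places have different classes. -/
theorem pt_injective [IsAlgClosed k] (hM : IsFunctionField k M) (hg : genus k M = 1) :
    Function.Injective (pt hM) := by
  intro P Q h
  obtain ⟨f, hf, hfe⟩ := (cl_eq_iff hM _ _).1 h
  obtain ⟨v, -, huniq⟩ := genus_one_exists_place hM hg (D := Finsupp.single Q 1) (degD_single _ _)
  have h1 : P = v := huniq P ⟨f, hf, by rw [← hfe]; abel⟩
  have h2 : Q = v := huniq Q ⟨1, one_ne_zero, by
    have : prin hM (1 : M) = 0 := by
      ext w
      change w.ord (1 : M) = 0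
      rw [Place.ord_one]
    rw [this, add_zero]⟩
  rw [h1, ← h2]

/-- In genus one every divisor class of degree one is the class of a place. -/
theorem exists_pt [IsAlgClosed k] (hM : IsFunctionField k M) (hg : genus k M = 1) {D : Dv k M}
    (hD : degD D = 1) : ∃ P : Place k M, pt hM P = cl hM D := by
  obtain ⟨v, ⟨f, hf, hfe⟩, -⟩ := genus_one_exists_place hM hg hD
  refine ⟨v, (cl_eq_iff hM _ _).2 ⟨f, hf, ?_⟩⟩
  rw [← hfe]
  abel

/-- In genus one there is a separable function of degree two with a double pole at a given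
place. -/
theorem exists_deg_two [IsAlgClosed k] (hM : IsFunctionField k M) (hg : genus k M = 1)
    (O : Place k M) : ∃ u : M, Transcendental k u ∧ Module.finrank k⟮u⟯ M = 2 ∧
      Algebra.IsSeparable k⟮u⟯ M ∧ u ∈ Lsp (Finsupp.single O 2 : Dv k M) := by
  have h1 := genus_one_ell hM hg (D := Finsupp.single O 2) (by rw [degD_single]; norm_num)
  rw [degD_single] at h1
  obtain ⟨u, hu, hc⟩ : ∃ u ∈ Lsp (Finsupp.single O 2 : Dv k M), ∀ c : k, algebraMap k M c ≠ u := by
    by_contra hcon
    push Not at hcon
    have := finrank_le_one_of_const _ hcon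
    unfold ell at h1
    omega
  have htr := transcendental_of_not_const hc
  have hle := finrank_adjoin_le hM htr hu (by
    intro w
    classical
    rw [Finsupp.single_apply]
    split_ifs <;> norm_num)
  rw [degD_single] at hle
  obtain ⟨-, -, -, hpos⟩ := hM.zeros u htr
  have h2 : Module.finrank k⟮u⟯ M = 2 := by
    have hne : Module.finrank k⟮u⟯ M ≠ 1 := by
      intro h
      have := genus_rational hM u (IntermediateField.finrank_eq_one_iff_eq_top.1 h)
      omega
    omega
  haveI : FiniteDimensional k⟮u⟯ M := finiteDimensional_adjoin hM u htr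
  have hE : IsFunctionField k k⟮u⟯ := isFunctionField_adjoin hM u htr
  refine ⟨u, htr, h2, ?_, hu⟩
  have hsimple := IntermediateField.isSimpleOrder_of_finrank_prime k⟮u⟯ M (h2 ▸ Nat.prime_two)
  rcases hsimple.eq_bot_or_eq_top (separableClosure k⟮u⟯ M) with h | h
  · exfalso
    haveI := (separableClosure.eq_bot_iff).1 h
    have h3 := genus_eq_of_isPurelyInseparable hM k⟮u⟯
    have h4 : genus k k⟮u⟯ = 0 := by
      refine genus_rational hE (AdjoinSimple.gen k u) ?_
      apply IntermediateField.lift_injective
      rw [IntermediateField.lift_adjoin_simple, IntermediateField.lift_top]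
      rfl
    omega
  · exact (separableClosure.eq_top_iff _ _).1 h

/-- **The involution attached to a place of a genus one function field.** -/
theorem exists_involution [IsAlgClosed k] (hM : IsFunctionField k M) (hg : genus k M = 1)
    (O : Place k M) : ∃ (i : M ≃ₐ[k] M) (u : M), Transcendental k u ∧
      Module.finrank k⟮u⟯ M = 2 ∧ (∀ x, i x = x ↔ x ∈ k⟮u⟯) ∧
      ∀ P, pt hM (act i P) + pt hM P = (2 : ℕ) • pt hM O := by
  classical
  obtain ⟨u, htr, h2, hsep, hu⟩ := exists_deg_two hM hg O
  haveI : FiniteDimensional k⟮u⟯ M := finiteDimensional_adjoin hM u htr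
  have hE : IsFunctionField k k⟮u⟯ := isFunctionField_adjoin hM u htr
  haveI : Algebra.IsQuadraticExtension k⟮u⟯ M := ⟨h2⟩
  haveI : IsGalois k⟮u⟯ M := inferInstance
  have hcard : Nat.card (M ≃ₐ[k⟮u⟯] M) = 2 := by rw [IsGalois.card_aut_eq_finrank, h2]
  obtain ⟨σ, hσ, hσu⟩ := (Nat.card_eq_two_iff' (1 : M ≃ₐ[k⟮u⟯] M)).1 hcard
  set i : M ≃ₐ[k] M := σ.restrictScalars k with hi
  have hiE : ∀ x, i x = x ↔ x ∈ k⟮u⟯ := by
    intro x
    constructor
    · intro hx
      obtain ⟨y, hy⟩ := (IsGalois.mem_range_algebraMap_iff_fixed (F := k⟮u⟯) x).2 (fun τ => by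
        by_cases hτ : τ = 1
        · rw [hτ]; rfl
        · rw [hσu τ hτ]; exact hx)
      rw [← hy]
      exact y.2
    · intro hx
      exact σ.commutes ⟨x, hx⟩
  have hsymm : ∀ x ∈ k⟮u⟯, i.symm x = x := by
    intro x hx
    rw [AlgEquiv.symm_apply_eq]
    exact ((hiE x).2 hx).symm
  have huE : u ∈ k⟮u⟯ := mem_adjoin_simple_self k u
  have hu0 : u ≠ 0 := transcendental_ne_zero htr
  -- poles
  have hpole : ∀ w : Place k M, w ≠ O → w.val u ≤ 1 := by
    intro w hw
    have := (mem_Lsp _ u).1 hu w
    rwa [Finsupp.single_apply, if_neg (Ne.symm hw), WithZero.exp_zero] at this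
  have hO : 1 < O.val u := by
    obtain ⟨S, hS, hsum, hpos⟩ := hM.zeros u⁻¹ (transcendental_inv htr)
    rcases S.eq_empty_or_nonempty with h | ⟨v, hv⟩
    · rw [h] at hsum
      simp only [Finset.sum_empty] at hsum
      have : (0:ℤ) < (Module.finrank k⟮u⁻¹⟯ M : ℤ) := by exact_mod_cast hpos
      omega
    · have h3 := (hS v).1 hv
      rw [← v.ord_pos_iff (inv_ne_zero hu0), v.ord_inv] at h3
      have h4 : v.ord u < 0 := by omega
      rw [v.ord_neg_iff hu0] at h4
      by_cases hvO : v = O
      · rw [← hvO]; exact h4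
      · exact absurd (hpole v hvO) (not_le.2 h4)
  have hiO : act i O = O := by
    by_contra h
    have h3 := hpole _ h
    rw [act_val, hsymm u huE] at h3
    exact absurd h3 (not_le.2 hO)
  refine ⟨i, u, htr, h2, hiE, fun P => ?_⟩
  by_cases hPO : P = O
  · rw [hPO, hiO, two_nsmul]
  -- the value at `P`
  obtain ⟨c, hc⟩ := exists_res_val hM P u (hpole P hPO)
  set f := u - algebraMap k M c with hf
  have hfE : f ∈ k⟮u⟯ := sub_mem huE (IntermediateField.algebraMap_mem _ c)
  have hf0 : f ≠ 0 := by
    intro h
    rw [hf, sub_eq_zero] at h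
    apply htr
    rw [h]
    exact isAlgebraic_algebraMap c
  have hcL : algebraMap k M c ∈ Lsp (Finsupp.single O 2 : Dv k M) := by
    rw [mem_Lsp]
    intro w
    refine (w.val_algebraMap_le c).trans ?_
    rw [← WithZero.exp_zero, WithZero.exp_le_exp, Finsupp.single_apply]
    split_ifs <;> norm_num
  have hfL : f ∈ Lsp (Finsupp.single O 2 : Dv k M) := sub_mem hu hcL
  have hD0 : 0 ≤ (Finsupp.single O 2 : Dv k M) + prin hM f := (mem_Lsp_iff_prin hM _ hf0).1 hfL
  have hP1 : 1 ≤ P.ord f := by
    have := (P.ord_pos_iff hf0).2 hc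
    omega
  have hiP : (act i P).ord f = P.ord f := by
    rw [act_ord, hsymm f hfE]
  have hR : (Finsupp.single (act i P) 1 + Finsupp.single P 1 : Dv k M) ≤
      (Finsupp.single O 2 : Dv k M) + prin hM f := by
    intro w
    rw [Finsupp.add_apply]
    have h00 := hD0 w
    rw [Finsupp.coe_zero, Pi.zero_apply] at h00
    have hO2 : 0 ≤ (Finsupp.single O 2 : Dv k M) w := by
      rw [Finsupp.single_apply]
      split_ifs <;> norm_num
    by_cases h3 : act i P = P
    · rw [h3]
      by_cases hw : w = P
      · rw [hw, Finsupp.single_apply, if_pos rfl, Finsupp.add_apply, Pool.Agent.Helper47.RR.prin_apply]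
        rw [hw] at hO2
        have h4 : 2 ≤ P.ord f := by
          have h5 : ram hE P = 2 := by
            rw [← card_stab hE P, ← hcard]
            refine Nat.card_congr (Equiv.subtypeUnivEquiv fun τ => ?_)
            by_cases hτ : τ = 1
            · rw [hτ]; exact act_one P
            · rw [hσu τ hτ]; exact h3
          have h6 := ord_algebraMap hE P (⟨f, hfE⟩ : k⟮u⟯)
          change P.ord f = _ at h6
          rw [h5] at h6
          push_cast at h6
          omega
        linarith
      · rw [Finsupp.single_apply, if_neg (Ne.symm hw)]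
        simpa using h00
    · by_cases hw : w = P
      · rw [hw, Finsupp.single_apply, if_neg h3, Finsupp.single_apply, if_pos rfl,
          Finsupp.add_apply, Pool.Agent.Helper47.RR.prin_apply]
        rw [hw] at hO2
        linarith
      · by_cases hw' : w = act i P
        · rw [hw', Finsupp.single_apply, if_pos rfl, Finsupp.single_apply, if_neg (Ne.symm h3),
            Finsupp.add_apply, Pool.Agent.Helper47.RR.prin_apply, hiP]
          rw [hw'] at hO2
          linarith
        · rw [Finsupp.single_apply, if_neg (Ne.symm hw'), Finsupp.single_apply,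
            if_neg (Ne.symm hw)]
          simpa using h00
  have heq := eq_of_le_of_degD hR (by
    rw [degD_add, degD_add, degD_single, degD_single, degD_single, degD_prin]
    norm_num)
  change cl hM _ + cl hM _ = (2 : ℕ) • cl hM _
  rw [← map_add, ← map_nsmul]
  refine (cl_eq_iff hM _ _).2 ⟨f, hf0, ?_⟩
  rw [heq, Finsupp.smul_single, nsmul_eq_mul]
  simp

end Pool.Agent.Helper84.EN
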